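import Mathlib

set_option autoImplicit false

/-!
For the Furstenberg family `F` of all infinite subsets of `ℕ` there is a weighted backward shift
`T` on `c₀` such that `S ⊕ T` is `F`-hypercyclic (that is, hypercyclic) for every hypercyclic
operator `S` on any infinite-dimensional Polish topological vector space, although `T` is not
hereditarily `F`-hypercyclic (equivalently, not topologically mixing).
-/

namespace Pool.Agent.Results.MP_1d57ab_an.MildlyMixingShift

open Filter Topology TopologicalSpace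
open scoped ZeroAtInfty

/-- A Furstenberg family: non-empty subsets of `ℕ`, hereditary upwards. -/
structure FurstenbergFamily where
  sets : Set (Set ℕ)
  nonempty : ∀ A ∈ sets, A.Nonempty
  upward : ∀ A ∈ sets, ∀ B : Set ℕ, A ⊆ B → B ∈ sets

/-- The visit set `N_T(x, V) = {n : T^n x ∈ V}`. -/
def visits {X : Type} (T : X → X) (x : X) (V : Set X) : Set ℕ := {n | T^[n] x ∈ V}

/-- `T` is `F`-hypercyclic. -/
def IsFHypercyclic {X : Type} [TopologicalSpace X] (F : FurstenbergFamily) (T : X → X) : Prop :=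
  ∃ x, ∀ V : Set X, IsOpen V → V.Nonempty → visits T x V ∈ F.sets

/-- `T` is hereditarily `F`-hypercyclic. -/
def IsHereditarilyFHypercyclic {X : Type} [TopologicalSpace X] (F : FurstenbergFamily)
    (T : X → X) : Prop :=
  ∀ (I : Type) [Countable I] (V : I → Set X) (A : I → Set ℕ),
    (∀ i, IsOpen (V i)) → (∀ i, (V i).Nonempty) → (∀ i, A i ∈ F.sets) →
    ∃ x, ∀ i, visits T x (V i) ∩ A i ∈ F.sets

/-- The family of all infinite subsets of `ℕ`. -/
def infiniteSets : FurstenbergFamily where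
  sets := {A | A.Infinite}
  nonempty := fun _ h => h.nonempty
  upward := fun _ h _ hB => h.mono hB

/-- `M n = 2 ^ (n - k²)`, `k²` the largest square `≤ n`. -/
noncomputable def M (n : ℕ) : ℝ := 2 ^ (n - Nat.sqrt n ^ 2)

/-- The weights `w n = M n / M (n - 1)`, `n ≥ 1`. -/
noncomputable def w (n : ℕ) : ℝ := M n / M (n - 1)

theorem M_pos (n : ℕ) : 0 < M n := by unfold M; positivity

theorem M_step (n : ℕ) : M (n + 1) ≤ 2 * M n := by
  unfold M
  rw [← pow_succ']
  apply pow_le_pow_right₀ (by norm_num)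
  have h1 : Nat.sqrt n ≤ Nat.sqrt (n + 1) := Nat.sqrt_le_sqrt (Nat.le_succ n)
  have h2 : Nat.sqrt n ^ 2 ≤ Nat.sqrt (n + 1) ^ 2 := Nat.pow_le_pow_left h1 2
  omega

theorem w_nonneg (n : ℕ) : 0 ≤ w n := div_nonneg (M_pos _).le (M_pos _).le

theorem w_le (n : ℕ) : w (n + 1) ≤ 2 := by
  unfold w
  rw [Nat.add_sub_cancel, div_le_iff₀ (M_pos n)]
  exact M_step n

theorem M_sq (k : ℕ) : M (k ^ 2) = 1 := by
  unfold M
  rw [Nat.sqrt_eq' k, Nat.sub_self, pow_zero]

theorem M_zero : M 0 = 1 := by simpa using M_sq 0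

section
variable (𝕜 : Type) [RCLike 𝕜]

theorem norm_le_iff (x : C₀(ℕ, 𝕜)) (c : ℝ) (hc : 0 ≤ c) : ‖x‖ ≤ c ↔ ∀ n, ‖x n‖ ≤ c := by
  rw [← ZeroAtInftyContinuousMap.norm_toBCF_eq_norm]
  exact BoundedContinuousFunction.norm_le hc

theorem zero_iff (y : ℕ → 𝕜) : Tendsto y (cocompact ℕ) (𝓝 0) ↔ Tendsto y atTop (𝓝 0) := by
  rw [cocompact_eq_cofinite, Nat.cofinite_eq_atTop]

/-- The weighted backward shift `(T x)(n) = w (n + 1) x (n + 1)` on `c₀(ℕ, 𝕜)`. -/
noncomputable def shift : C₀(ℕ, 𝕜) →L[𝕜] C₀(ℕ, 𝕜) :=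
  LinearMap.mkContinuous
    { toFun := fun x => ⟨⟨fun n => ((w (n + 1) : ℝ) : 𝕜) * x (n + 1), continuous_of_discreteTopology⟩, by
        have h1 : Tendsto (fun n : ℕ => x (n + 1)) atTop (𝓝 0) :=
          (tendsto_add_atTop_iff_nat 1).mpr ((zero_iff 𝕜 _).mp x.zero_at_infty')
        refine (zero_iff 𝕜 _).mpr ?_
        rw [tendsto_zero_iff_norm_tendsto_zero] at h1 ⊢
        have h2 : Tendsto (fun n : ℕ => 2 * ‖x (n + 1)‖) atTop (𝓝 (2 * 0)) := h1.const_mul 2
        rw [mul_zero] at h2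
        refine squeeze_zero (fun _ => norm_nonneg _) (fun n => ?_) h2
        show ‖((w (n + 1) : ℝ) : 𝕜) * x (n + 1)‖ ≤ 2 * ‖x (n + 1)‖
        rw [norm_mul, RCLike.norm_ofReal, abs_of_nonneg (w_nonneg _)]
        exact mul_le_mul_of_nonneg_right (w_le n) (norm_nonneg _)⟩
      map_add' := by
        intro x y; ext n
        show ((w (n + 1) : ℝ) : 𝕜) * (x (n + 1) + y (n + 1)) = _ * x (n + 1) + _ * y (n + 1)
        ring
      map_smul' := by
        intro c x; ext n
        show ((w (n + 1) : ℝ) : 𝕜) * (c * x (n + 1)) = c * (_ * x (n + 1))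
        ring }
    2 (by
      intro x
      rw [norm_le_iff 𝕜 _ _ (by positivity)]
      intro n
      show ‖((w (n + 1) : ℝ) : 𝕜) * x (n + 1)‖ ≤ 2 * ‖x‖
      rw [norm_mul, RCLike.norm_ofReal, abs_of_nonneg (w_nonneg _)]
      exact mul_le_mul (w_le n) ((norm_le_iff 𝕜 x _ (norm_nonneg _)).mp le_rfl _)
        (norm_nonneg _) (by norm_num))

theorem shift_apply (x : C₀(ℕ, 𝕜)) (n : ℕ) :
    shift 𝕜 x n = ((w (n + 1) : ℝ) : 𝕜) * x (n + 1) := rfl

theorem shift_iter (x : C₀(ℕ, 𝕜)) (n j : ℕ) :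
    ((shift 𝕜)^[n] x) j = ((M (n + j) / M j : ℝ) : 𝕜) * x (n + j) := by
  induction n generalizing j with
  | zero =>
    rw [Function.iterate_zero, id, Nat.zero_add, div_self (M_pos j).ne']; simp
  | succ n ih =>
    rw [Function.iterate_succ_apply', shift_apply, ih, ← mul_assoc, ← RCLike.ofReal_mul]
    have h1 : w (j + 1) * (M (n + (j + 1)) / M (j + 1)) = M (n + 1 + j) / M j := by
      unfold w
      rw [Nat.add_sub_cancel, show n + (j + 1) = n + 1 + j by ring]
      have := (M_pos (j + 1)).ne'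
      have := (M_pos j).ne'
      field_simp
    rw [h1, show n + (j + 1) = n + 1 + j by ring]

/-- an element of `c₀` from a function vanishing from `r` on -/
noncomputable def fin (y : ℕ → 𝕜) (r : ℕ) (h : ∀ n, r ≤ n → y n = 0) : C₀(ℕ, 𝕜) :=
  ⟨⟨y, continuous_of_discreteTopology⟩, by
    refine (zero_iff 𝕜 _).mpr ?_
    exact tendsto_const_nhds.congr' (by
      filter_upwards [eventually_ge_atTop r] with n hn
      exact (h n hn).symm)⟩

@[simp] theorem fin_apply (y : ℕ → 𝕜) (r : ℕ) (h : ∀ n, r ≤ n → y n = 0) (n : ℕ) :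
    fin 𝕜 y r h n = y n := rfl

/-- finitely supported sequences are dense -/
theorem dense_fin (x : C₀(ℕ, 𝕜)) (ε : ℝ) (hε : 0 < ε) :
    ∃ (y : C₀(ℕ, 𝕜)) (r : ℕ), (∀ n, r ≤ n → y n = 0) ∧ ‖y - x‖ ≤ ε := by
  have h1 : Tendsto (fun n : ℕ => x n) atTop (𝓝 0) := (zero_iff 𝕜 _).mp x.zero_at_infty'
  rw [Metric.tendsto_atTop] at h1
  obtain ⟨r, hr⟩ := h1 ε hε
  have h2 : ∀ n, r ≤ n → (fun n => if n < r then x n else 0) n = 0 := fun n hn =>
    if_neg (by omega)
  refine ⟨fin 𝕜 _ r h2, r, h2, ?_⟩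
  rw [norm_le_iff 𝕜 _ _ hε.le]
  intro n
  show ‖(if n < r then x n else 0) - x n‖ ≤ ε
  split_ifs with h
  · simp [hε.le]
  · have := hr n (by omega)
    rw [dist_zero_right] at this
    simpa using this.le

instance : SeparableSpace C₀(ℕ, 𝕜) := by
  classical
  let e : ℕ → C₀(ℕ, 𝕜) := fun v => fin 𝕜 (fun u => if u = v then 1 else 0) (v + 1) (by
    intro n hn
    exact if_neg (by omega))
  have hsep : IsSeparable (closure (Submodule.span 𝕜 (Set.range e) : Set C₀(ℕ, 𝕜))) :=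
    ((Set.countable_range e).isSeparable.span (R := 𝕜)).closure
  have huniv : closure (Submodule.span 𝕜 (Set.range e) : Set C₀(ℕ, 𝕜)) = Set.univ := by
    refine Set.eq_univ_of_forall fun x => ?_
    rw [Metric.mem_closure_iff]
    intro ε hε
    obtain ⟨y, r, hy, h1⟩ := dense_fin 𝕜 x (ε / 2) (by linarith)
    refine ⟨y, ?_, ?_⟩
    · have hrep : y = ∑ v ∈ Finset.range r, y v • e v := by
        ext u
        have hsum : ∀ (s : Finset ℕ), (∑ v ∈ s, y v • e v) u
            = ∑ v ∈ s, y v * (if u = v then 1 else 0) := by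
          intro s
          induction s using Finset.induction_on with
          | empty => simp
          | insert a s ha ih =>
            rw [Finset.sum_insert ha, Finset.sum_insert ha, ← ih]; rfl
        rw [hsum, Finset.sum_eq_single u]
        · simp
        · intro v _ hv; rw [if_neg (Ne.symm hv), mul_zero]
        · intro hu
          rw [hy u (by simpa using hu), zero_mul]
      rw [hrep]
      exact Submodule.sum_mem _ fun v _ => Submodule.smul_mem _ _ (Submodule.subset_span ⟨v, rfl⟩)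
    · rw [dist_comm, dist_eq_norm]; linarith
  rw [huniv] at hsep
  exact isSeparable_univ_iff.mp hsep

/-- transitivity at good times -/
theorem trans_shift (U V : Set C₀(ℕ, 𝕜)) (hU : IsOpen U) (hUn : U.Nonempty) (hV : IsOpen V)
    (hVn : V.Nonempty) : ∃ K r : ℕ, ∀ n, r ≤ n → (∀ a : ℕ, a ^ 2 + K ≤ n ∨ n + r < a ^ 2) →
      ∃ x ∈ U, (shift 𝕜)^[n] x ∈ V := by
  obtain ⟨u0, hu0⟩ := hUn
  obtain ⟨v0, hv0⟩ := hVn
  obtain ⟨δ, hδ, hδU⟩ := Metric.isOpen_iff.mp hU u0 hu0
  obtain ⟨δ', hδ', hδV⟩ := Metric.isOpen_iff.mp hV v0 hv0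
  obtain ⟨u, r1, hu, hu1⟩ := dense_fin 𝕜 u0 (δ / 3) (by linarith)
  obtain ⟨v, r2, hv, hv1⟩ := dense_fin 𝕜 v0 (δ' / 2) (by linarith)
  -- bound on the coefficients
  obtain ⟨C, hC⟩ : ∃ C : ℝ, ∀ j, j < max r1 r2 → ‖v j‖ * M j ≤ C := by
    obtain ⟨C, hC⟩ := ((Set.finite_Iio (max r1 r2)).image (fun j => ‖v j‖ * M j)).bddAbove
    exact ⟨C, fun j hj => hC ⟨j, hj, rfl⟩⟩
  obtain ⟨K, hK⟩ := pow_unbounded_of_one_lt (max C 0 / (δ / 3)) (show (1 : ℝ) < 2 by norm_num)
  refine ⟨K, max r1 r2, fun n hn hgood => ?_⟩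
  have hMbig : ∀ j, j < max r1 r2 → (2 : ℝ) ^ K ≤ M (n + j) := by
    intro j hj
    unfold M
    apply pow_le_pow_right₀ (by norm_num)
    have h1 := Nat.sqrt_le' (n + j)
    rcases hgood (Nat.sqrt (n + j)) with h2 | h2
    · omega
    · omega
  have hz : ∀ m, n + max r1 r2 ≤ m → (fun m => if n ≤ m then
      v (m - n) * ((M (m - n) / M m : ℝ) : 𝕜) else 0) m = 0 := by
    intro m hm
    show (if n ≤ m then v (m - n) * ((M (m - n) / M m : ℝ) : 𝕜) else 0) = 0
    rw [if_pos (by omega), hv (m - n) (by omega), zero_mul]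
  refine ⟨u + fin 𝕜 _ (n + max r1 r2) hz, ?_, ?_⟩
  · apply hδU
    rw [Metric.mem_ball, dist_eq_norm]
    have h1 : ‖fin 𝕜 _ (n + max r1 r2) hz‖ ≤ δ / 3 := by
      rw [norm_le_iff 𝕜 _ _ (by positivity)]
      intro m
      show ‖(if n ≤ m then v (m - n) * ((M (m - n) / M m : ℝ) : 𝕜) else 0)‖ ≤ δ / 3
      split_ifs with hm
      · rcases Nat.lt_or_ge (m - n) (max r1 r2) with h2 | h2
        · have h3 := hMbig (m - n) h2
          rw [show n + (m - n) = m by omega] at h3
          rw [norm_mul, RCLike.norm_ofReal, abs_of_nonneg (div_nonneg (M_pos _).le (M_pos _).le),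
            ← mul_div_assoc, div_le_iff₀ (M_pos m)]
          have h4 := hC (m - n) h2
          have h5 : max C 0 < δ / 3 * 2 ^ K := by
            rw [div_lt_iff₀ (by positivity)] at hK; linarith
          have h6 : δ / 3 * 2 ^ K ≤ δ / 3 * M m := mul_le_mul_of_nonneg_left h3 (by positivity)
          have h7 := le_max_left C 0
          linarith
        · rw [hv (m - n) (by omega), zero_mul, norm_zero]; positivity
      · rw [norm_zero]; positivity
    have h2 : ‖u + fin 𝕜 _ (n + max r1 r2) hz - u0‖ ≤ ‖u - u0‖ + ‖fin 𝕜 _ (n + max r1 r2) hz‖ := by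
      rw [show u + fin 𝕜 _ (n + max r1 r2) hz - u0 = (u - u0) + fin 𝕜 _ (n + max r1 r2) hz by abel]
      exact norm_add_le _ _
    linarith
  · have h1 : (shift 𝕜)^[n] (u + fin 𝕜 _ (n + max r1 r2) hz) = v := by
      ext j
      rw [shift_iter]
      show _ * (u (n + j) + (if n ≤ n + j then
        v (n + j - n) * ((M (n + j - n) / M (n + j) : ℝ) : 𝕜) else 0)) = v j
      rw [if_pos (by omega), hu (n + j) (by omega), zero_add, show n + j - n = j by omega]
      have h2 : M (n + j) / M j * (M j / M (n + j)) = 1 := by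
        have := (M_pos (n + j)).ne'
        have := (M_pos j).ne'
        field_simp
      calc ((M (n + j) / M j : ℝ) : 𝕜) * (v j * ((M j / M (n + j) : ℝ) : 𝕜))
          = v j * ((M (n + j) / M j * (M j / M (n + j)) : ℝ) : 𝕜) := by
            rw [RCLike.ofReal_mul]; ring
        _ = v j := by rw [h2]; simp
    rw [h1]
    apply hδV
    rw [Metric.mem_ball, dist_eq_norm]; linarith

/-- good times in shifted orbits -/
theorem good_time (K r p : ℕ) (hp : K + r < p) : ∃ Q : ℕ, ∀ n, Q ≤ n →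
    (∀ a : ℕ, a ^ 2 + K ≤ n ∨ n + r < a ^ 2) ∨
      (∀ a : ℕ, a ^ 2 + K ≤ n + p ∨ n + p + r < a ^ 2) := by
  refine ⟨(p + K + r + 1) ^ 2, fun n hn => ?_⟩
  by_contra hcon
  push Not at hcon
  obtain ⟨⟨a, ha1, ha2⟩, ⟨b, hb1, hb2⟩⟩ := hcon
  -- a² ∈ (n - K, n + r], b² ∈ (n + p - K, n + p + r]
  have hab : a < b := by
    by_contra h
    have : b ^ 2 ≤ a ^ 2 := Nat.pow_le_pow_left (not_lt.mp h) 2
    omega
  have hb : (a + 1) ^ 2 ≤ b ^ 2 := Nat.pow_le_pow_left hab 2
  have ha : p + K + r < a + K + 1 := by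
    by_contra h
    have h1 : a ≤ p + r := by omega
    have h2 : a ^ 2 ≤ (p + r) ^ 2 := Nat.pow_le_pow_left h1 2
    nlinarith
  nlinarith

end

theorem iter_prodMap {𝕜 : Type} [RCLike 𝕜] {Y X : Type} [AddCommGroup Y] [Module 𝕜 Y]
    [TopologicalSpace Y] [AddCommGroup X] [Module 𝕜 X] [TopologicalSpace X]
    (S : Y →L[𝕜] Y) (T : X →L[𝕜] X) (n : ℕ) (y : Y) (x : X) :
    (S.prodMap T)^[n] (y, x) = (S^[n] y, T^[n] x) := by
  induction n with
  | zero => rfl
  | succ n ih =>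
    rw [Function.iterate_succ_apply', ih, Function.iterate_succ_apply',
      Function.iterate_succ_apply']; rfl

/-- Main theorem. Scalars `𝕜 = ℝ` or `ℂ`; `c₀ = C₀(ℕ, 𝕜)` is an infinite-dimensional Polish
topological vector space, the shift is not hereditarily `F`-hypercyclic for `F` the family of
infinite sets, and its direct sum with every `F`-hypercyclic operator is `F`-hypercyclic. -/
theorem result (𝕜 : Type) [RCLike 𝕜] :
    PolishSpace C₀(ℕ, 𝕜) ∧ ¬ FiniteDimensional 𝕜 C₀(ℕ, 𝕜) ∧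
    ¬ IsHereditarilyFHypercyclic infiniteSets (shift 𝕜) ∧
    ∀ (Y : Type) [AddCommGroup Y] [Module 𝕜 Y] [TopologicalSpace Y] [IsTopologicalAddGroup Y]
      [ContinuousSMul 𝕜 Y] [PolishSpace Y], ¬ FiniteDimensional 𝕜 Y →
      ∀ S : Y →L[𝕜] Y, IsFHypercyclic infiniteSets S →
        IsFHypercyclic infiniteSets (S.prodMap (shift 𝕜)) := by
  refine ⟨inferInstance, ?_, ?_, ?_⟩
  · -- infinite-dimensional
    intro hfin
    let e : ℕ → C₀(ℕ, 𝕜) := fun v => fin 𝕜 (fun u => if u = v then 1 else 0) (v + 1) (by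
      intro n hn
      exact if_neg (by omega))
    have hli : LinearIndependent 𝕜 e := by
      rw [linearIndependent_iff']
      intro s g hg i hi
      have h1 := congrArg (fun x : C₀(ℕ, 𝕜) => x i) hg
      have hsum : ∀ (s : Finset ℕ), (∑ v ∈ s, g v • e v) i
          = ∑ v ∈ s, g v * (if i = v then 1 else 0) := by
        intro s
        induction s using Finset.induction_on with
        | empty => simp
        | insert a s ha ih =>
          rw [Finset.sum_insert ha, Finset.sum_insert ha, ← ih]; rfl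
      simp only [hsum] at h1
      rw [Finset.sum_eq_single i] at h1
      · simpa using h1
      · intro v _ hv; rw [if_neg (Ne.symm hv), mul_zero]
      · intro h; exact absurd hi h
    have := hli.finite
    exact not_finite ℕ
  · intro h
    obtain ⟨x, hx⟩ := h Unit (fun _ => {x : C₀(ℕ, 𝕜) | 1 < ‖x 0‖}) (fun _ => {n | ∃ k, n = k ^ 2})
      (fun _ => by
        apply isOpen_lt continuous_const
        refine LipschitzWith.continuous (K := 1) (LipschitzWith.of_dist_le_mul fun x y => ?_)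
        rw [Real.dist_eq, NNReal.coe_one, one_mul, dist_eq_norm]
        refine (abs_norm_sub_norm_le _ _).trans ?_
        exact (norm_le_iff 𝕜 (x - y) _ (norm_nonneg _)).mp le_rfl 0)
      (fun _ => ⟨fin 𝕜 (fun u => if u = 0 then 2 else 0) 1 (by
          intro n hn
          exact if_neg (by omega)), by
        show 1 < ‖(if (0 : ℕ) = 0 then (2 : 𝕜) else 0)‖
        simp⟩)
      (fun _ => by
        apply Set.infinite_of_injective_forall_mem (f := fun k : ℕ => k ^ 2)
        · intro a b hab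
          exact Nat.pow_left_injective (by norm_num) hab
        · intro k; exact ⟨k, rfl⟩)
    have h1 := hx ()
    have h2 : Tendsto (fun n : ℕ => x n) atTop (𝓝 0) := (zero_iff 𝕜 _).mp x.zero_at_infty'
    rw [Metric.tendsto_atTop] at h2
    obtain ⟨N, hN⟩ := h2 1 one_pos
    apply h1
    refine (Set.finite_Iio N).subset ?_
    rintro n ⟨hn1, k, rfl⟩
    by_contra hcon
    have h3 := hN (k ^ 2) (by simpa using hcon)
    rw [dist_zero_right] at h3
    have h4 : 1 < ‖((shift 𝕜)^[k ^ 2] x) 0‖ := hn1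
    rw [shift_iter, Nat.add_zero, M_sq, M_zero] at h4
    simp at h4
    linarith
  · intro Y _ _ _ _ _ _ _ S hS
    obtain ⟨y, hy⟩ := hS
    let _ := upgradeIsCompletelyMetrizable Y
    -- transitivity with arbitrarily large times
    have htrans : ∀ (W W' : Set (Y × C₀(ℕ, 𝕜))), IsOpen W → W.Nonempty → IsOpen W' → W'.Nonempty →
        ∀ N : ℕ, ∃ n, N ≤ n ∧ ∃ z ∈ W, (S.prodMap (shift 𝕜))^[n] z ∈ W' := by
      rintro W W' hW ⟨⟨a, b⟩, hab⟩ hW' ⟨⟨c, d⟩, hcd⟩ N
      obtain ⟨U1, U2, hU1, hU2, ha, hb, hsub⟩ := isOpen_prod_iff.mp hW a b hab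
      obtain ⟨V1, V2, hV1, hV2, hc, hd, hsub'⟩ := isOpen_prod_iff.mp hW' c d hcd
      obtain ⟨K, r, hKr⟩ := trans_shift 𝕜 U2 V2 hU2 ⟨b, hb⟩ hV2 ⟨d, hd⟩
      have hinfU : (visits S y U1).Infinite := hy U1 hU1 ⟨a, ha⟩
      have hinfV : (visits S y V1).Infinite := hy V1 hV1 ⟨c, hc⟩
      obtain ⟨m1, hm1⟩ := hinfU.nonempty
      obtain ⟨m2, hm2, hm12⟩ := hinfU.exists_gt (m1 + K + r)
      obtain ⟨p, hp⟩ : ∃ p, m2 = m1 + p := ⟨m2 - m1, by omega⟩
      obtain ⟨Q, hQ⟩ := good_time K r p (by omega)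
      obtain ⟨q, hq, hqbig⟩ := hinfV.exists_gt (m2 + Q + N + r)
      have hfinal : ∀ n m, n + m = q → m ∈ visits S y U1 → r ≤ n → N ≤ n →
          (∀ a : ℕ, a ^ 2 + K ≤ n ∨ n + r < a ^ 2) →
          ∃ n, N ≤ n ∧ ∃ z ∈ W, (S.prodMap (shift 𝕜))^[n] z ∈ W' := by
        intro n m hnm hm hrn hNn hg
        obtain ⟨x, hx1, hx2⟩ := hKr n hrn hg
        refine ⟨n, hNn, (S^[m] y, x), hsub ⟨hm, hx1⟩, ?_⟩
        rw [iter_prodMap]
        apply hsub'
        refine ⟨?_, hx2⟩
        rw [← Function.iterate_add_apply, hnm]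
        exact hq
      rcases hQ (q - m2) (by omega) with h | h
      · exact hfinal (q - m2) m2 (by omega) hm2 (by omega) (by omega) h
      · rw [show q - m2 + p = q - m1 by omega] at h
        exact hfinal (q - m1) m1 (by omega) hm1 (by omega) (by omega) h
    -- Baire
    have hcontS : Continuous (S.prodMap (shift 𝕜)) := (S.prodMap (shift 𝕜)).continuous
    let B := countableBasis (Y × C₀(ℕ, 𝕜))
    have hBc : B.Countable := countable_countableBasis _
    have : Countable B := hBc.to_subtype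
    let O : B × ℕ → Set (Y × C₀(ℕ, 𝕜)) := fun q =>
      ⋃ n ∈ {n | q.2 ≤ n}, ((S.prodMap (shift 𝕜))^[n]) ⁻¹' (q.1 : Set (Y × C₀(ℕ, 𝕜)))
    have hO1 : ∀ q, IsOpen (O q) := fun q =>
      isOpen_biUnion fun n _ => (isOpen_of_mem_countableBasis q.1.2).preimage (hcontS.iterate n)
    have hO2 : ∀ q, Dense (O q) := by
      intro q
      rw [dense_iff_inter_open]
      intro W hW hWn
      obtain ⟨n, hn, z, hz, hz'⟩ := htrans W q.1 hW hWn (isOpen_of_mem_countableBasis q.1.2)
        (nonempty_of_mem_countableBasis q.1.2) q.2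
      exact ⟨z, hz, Set.mem_biUnion hn hz'⟩
    obtain ⟨z, hz⟩ := (dense_iInter_of_isOpen hO1 hO2).nonempty
    refine ⟨z, fun V hV hVn => ?_⟩
    obtain ⟨v, hv⟩ := hVn
    obtain ⟨b, hb, hvb, hbV⟩ := (isBasis_countableBasis (Y × C₀(ℕ, 𝕜))).exists_subset_of_mem_open hv hV
    show (visits (S.prodMap (shift 𝕜)) z V).Infinite
    rw [Set.infinite_iff_exists_gt] 
    intro N
    have h1 := Set.mem_iInter.mp hz (⟨b, hb⟩, N + 1)
    simp only [O, Set.mem_iUnion] at h1
    obtain ⟨n, hn, hzn⟩ := h1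
    have hn' : N + 1 ≤ n := hn
    exact ⟨n, hbV hzn, by omega⟩

end Pool.Agent.Results.MP_1d57ab_an.MildlyMixingShift
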